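import Pool.Agent.Helper770.BlowData

set_option autoImplicit false

namespace Pool.Agent.Results.MP_aca8be_co.BiplanarConstant

open Pool.Agent.Helper770.Crossing Pool.Agent.Helper770.Straight Filter Topology

/-- The ratio of the biplanar crossing number of the complete graph on `n` vertices and the
binomial coefficient `n` over `4`. -/
noncomputable def ratio (n : ℕ) : ℝ :=
  (biplanarCrossingNumber (⊤ : SimpleGraph (Fin n)) : ℝ) / (n.choose 4 : ℝ)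

lemma upper (n : ℕ) : (biplanarCrossingNumber (⊤ : SimpleGraph (Fin n)) : ℝ) ≤
    427 / 98304 * ((n : ℝ) + 16) ^ 4 + 64 * ((n : ℝ) + 16) ^ 3 := by
  have h1 : biplanarCrossingNumber (⊤ : SimpleGraph (Fin n)) ≤
      (n / 16 + 1).choose 4 * 6832 + 4 * ((n / 16 + 1) ^ 3 * 16 ^ 4) := by
    refine (biplanar_top_le ?_).trans (Pool.Agent.Helper770.BlowData.bound (n / 16 + 1))
    rw [Fintype.card_prod, Fintype.card_fin, Fintype.card_fin, Fintype.card_fin]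
    omega
  have h2 : (biplanarCrossingNumber (⊤ : SimpleGraph (Fin n)) : ℝ) ≤
      ((n / 16 + 1 : ℕ).choose 4 : ℝ) * 6832 + 4 * (((n / 16 + 1 : ℕ) : ℝ) ^ 3 * 16 ^ 4) := by
    exact_mod_cast h1
  have h3 : ((n / 16 + 1 : ℕ).choose 4 : ℝ) ≤ ((n / 16 + 1 : ℕ) : ℝ) ^ 4 / 24 := by
    have := Nat.choose_le_pow_div (α := ℝ) 4 (n / 16 + 1)
    have e : ((Nat.factorial 4 : ℕ) : ℝ) = 24 := by norm_num [Nat.factorial]
    rw [e] at this
    exact this
  have h4 : ((n / 16 + 1 : ℕ) : ℝ) ≤ ((n : ℝ) + 16) / 16 := by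
    have h5 : ((n / 16 : ℕ) : ℝ) ≤ (n : ℝ) / 16 := by
      have := @Nat.cast_div_le ℝ _ _ _ n 16
      simpa using this
    push_cast
    linarith
  have h0 : (0 : ℝ) ≤ ((n / 16 + 1 : ℕ) : ℝ) := Nat.cast_nonneg _
  have h6 : ((n / 16 + 1 : ℕ) : ℝ) ^ 4 ≤ (((n : ℝ) + 16) / 16) ^ 4 := pow_le_pow_left₀ h0 h4 4
  have h7 : ((n / 16 + 1 : ℕ) : ℝ) ^ 3 ≤ (((n : ℝ) + 16) / 16) ^ 3 := pow_le_pow_left₀ h0 h4 3
  have h8 : (((n : ℝ) + 16) / 16) ^ 4 = ((n : ℝ) + 16) ^ 4 / 65536 := by rw [div_pow]; norm_num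
  have h9 : (((n : ℝ) + 16) / 16) ^ 3 = ((n : ℝ) + 16) ^ 3 / 4096 := by rw [div_pow]; norm_num
  rw [h8] at h6
  rw [h9] at h7
  linarith

lemma lower (n : ℕ) (hn : 4 ≤ n) : ((n : ℝ) - 3) ^ 4 / 24 ≤ (n.choose 4 : ℝ) := by
  have h1 : (n + 1 - 4) ^ 4 ≤ n.descFactorial 4 := Nat.pow_sub_le_descFactorial n 4
  rw [Nat.descFactorial_eq_factorial_mul_choose] at h1
  have h2 : (((n + 1 - 4 : ℕ) : ℝ)) ^ 4 ≤ 24 * (n.choose 4 : ℝ) := by
    have e : (Nat.factorial 4) = 24 := rfl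
    rw [e] at h1
    exact_mod_cast h1
  have h3 : ((n + 1 - 4 : ℕ) : ℝ) = (n : ℝ) - 3 := by
    have : n + 1 - 4 = n - 3 := by omega
    rw [this, Nat.cast_sub (by omega)]
    norm_num
  rw [h3] at h2
  linarith

lemma ratio_le (n : ℕ) (hn : 4 ≤ n) : ratio n ≤
    427 / 4096 * (((n : ℝ) + 16) / ((n : ℝ) - 3)) ^ 4 +
      1536 * ((((n : ℝ) + 16) / ((n : ℝ) - 3)) ^ 3 * (1 / ((n : ℝ) - 3))) := by
  have hn' : (4 : ℝ) ≤ n := by exact_mod_cast hn
  have hp : 0 < (n : ℝ) - 3 := by linarith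
  have h1 := upper n
  have h2 := lower n hn
  have h3 : 0 < ((n : ℝ) - 3) ^ 4 / 24 := by positivity
  unfold ratio
  calc (biplanarCrossingNumber (⊤ : SimpleGraph (Fin n)) : ℝ) / (n.choose 4 : ℝ)
      ≤ (427 / 98304 * ((n : ℝ) + 16) ^ 4 + 64 * ((n : ℝ) + 16) ^ 3) /
        (((n : ℝ) - 3) ^ 4 / 24) := by
        apply div_le_div₀ (by positivity) h1 h3 h2
    _ = _ := by
        field_simp
        ring

lemma tend_bound : Tendsto (fun n : ℕ => 427 / 4096 * (((n : ℝ) + 16) / ((n : ℝ) - 3)) ^ 4 +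
      1536 * ((((n : ℝ) + 16) / ((n : ℝ) - 3)) ^ 3 * (1 / ((n : ℝ) - 3)))) atTop
      (𝓝 (427 / 4096)) := by
  have ht : Tendsto (fun n : ℕ => (n : ℝ) - 3) atTop atTop :=
    tendsto_atTop_add_const_right _ _ tendsto_natCast_atTop_atTop
  have h1 : Tendsto (fun n : ℕ => 1 / ((n : ℝ) - 3)) atTop (𝓝 0) :=
    ht.const_div_atTop 1
  have h2 : Tendsto (fun n : ℕ => ((n : ℝ) + 16) / ((n : ℝ) - 3)) atTop (𝓝 1) := by
    have h3 : Tendsto (fun n : ℕ => 1 + 19 * (1 / ((n : ℝ) - 3))) atTop (𝓝 (1 + 19 * 0)) :=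
      (h1.const_mul 19).const_add 1
    rw [mul_zero, add_zero] at h3
    refine h3.congr' ?_
    filter_upwards [eventually_ge_atTop 4] with n hn
    have hn' : (4 : ℝ) ≤ n := by exact_mod_cast hn
    have hp : (n : ℝ) - 3 ≠ 0 := by linarith
    field_simp
    ring
  have h4 := ((h2.pow 4).const_mul (427 / 4096)).add (((h2.pow 3).mul h1).const_mul 1536)
  simpa using h4

/-- The limit superior of the ratio is at most `427/4096`, so that no limit of the ratio equals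
`7/64`. -/
theorem result :
    (∀ ε : ℝ, 0 < ε → ∀ᶠ n : ℕ in atTop, ratio n ≤ 427 / 4096 + ε) ∧
      (∀ c : ℝ, Tendsto ratio atTop (𝓝 c) → c ≤ 427 / 4096 ∧ c < 7 / 64) ∧
      ¬ Tendsto ratio atTop (𝓝 (7 / 64)) := by
  have h1 : ∀ ε : ℝ, 0 < ε → ∀ᶠ n : ℕ in atTop, ratio n ≤ 427 / 4096 + ε := by
    intro ε hε
    have h2 := tend_bound.eventually (gt_mem_nhds (show (427 / 4096 : ℝ) < 427 / 4096 + ε by linarith))
    filter_upwards [h2, eventually_ge_atTop 4] with n h3 h4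
    exact (ratio_le n h4).trans h3.le
  have h2 : ∀ c : ℝ, Tendsto ratio atTop (𝓝 c) → c ≤ 427 / 4096 ∧ c < 7 / 64 := by
    intro c hc
    have h3 : c ≤ 427 / 4096 := by
      refine le_of_tendsto_of_tendsto hc tend_bound ?_
      filter_upwards [eventually_ge_atTop 4] with n h4
      exact ratio_le n h4
    exact ⟨h3, h3.trans_lt (by norm_num)⟩
  exact ⟨h1, h2, fun h => lt_irrefl _ (h2 _ h).2⟩

end Pool.Agent.Results.MP_aca8be_co.BiplanarConstant
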